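import Pool.Agent.W886.RU.Stm0

/-!
# Project RU, part E2U
-/

set_option autoImplicit false

namespace Pool.Agent.W675.RU

open Pool.Agent.W886.RU

/-- codes of operations -/
inductive Code : Type
  | zero : Code
  | succ : Code
  | proj (i : ℕ) : Code
  | mul : Code
  | orc : Code
  | comp (g h : Code) : Code
  | cons (a b : Code) : Code
  | lrec (g h b : Code) : Code
  deriving Countable

/-- put an element in front of a sequence -/
def cc (x : ℕ) (v : ℕ → ℕ) : ℕ → ℕ
  | 0 => x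
  | (i + 1) => v i

/-- evaluation on sequences -/
def ev : Code → (ℕ → Bool) → (ℕ → ℕ) → (ℕ → ℕ)
  | Code.zero => fun _ _ _ => 0
  | Code.succ => fun _ v _ => v 0 + 1
  | Code.proj i => fun _ v _ => v i
  | Code.mul => fun _ v _ => (v 0 + 1) * (v 1 + 1)
  | Code.orc => fun A v _ => (A (v 0)).toNat
  | Code.comp g h => fun A v => ev g A (ev h A v)
  | Code.cons a b => fun A v => cc (ev a A v 0) (ev b A v)
  | Code.lrec g h b => fun A v _ =>
      Nat.rec (min (ev g A (fun i => v (i + 1)) 0) (ev b A (cc 0 (fun i => v (i + 1))) 0))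
        (fun y r => min (ev h A (cc r (cc y (fun i => v (i + 1)))) 0)
          (ev b A (cc (y + 1) (fun i => v (i + 1))) 0)) (v 0)

/-- extension of a tuple by zeros -/
def ext {n : ℕ} (v : Fin n → ℕ) : ℕ → ℕ := fun i => if h : i < n then v ⟨i, h⟩ else 0

lemma ext_zero_tuple (v : Fin 0 → ℕ) : ext v = fun _ => 0 := by
  funext i; simp [ext]

lemma ext_cons {n : ℕ} (x : ℕ) (v : Fin n → ℕ) : ext (Matrix.vecCons x v) = cc x (ext v) := by
  funext i
  rcases i with _ | i
  · simp [ext, cc]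
  · simp only [ext, cc]
    by_cases h : i < n
    · have h' : i + 1 < n + 1 := by omega
      rw [dif_pos h, dif_pos h']
      have : (⟨i + 1, h'⟩ : Fin (n + 1)) = Fin.succ ⟨i, h⟩ := rfl
      rw [this, Matrix.cons_val_succ]
    · have h' : ¬ (i + 1 < n + 1) := by omega
      rw [dif_neg h, dif_neg h']

lemma cc_tail (x : ℕ) (v : ℕ → ℕ) : (fun i => cc x v (i + 1)) = v := rfl

/-- the code of a tuple -/
def tup : (m : ℕ) → (Fin m → Code) → Code
  | 0, _ => Code.zero
  | (m + 1), cs => Code.cons (cs 0) (tup m (fun i => cs i.succ))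

lemma ev_tup (m : ℕ) (cs : Fin m → Code) (A : ℕ → Bool) (v : ℕ → ℕ) :
    ev (tup m cs) A v = ext (fun i => ev (cs i) A v 0) := by
  induction m with
  | zero => rw [ext_zero_tuple]; rfl
  | succ m ih =>
    have h1 : ev (tup (m + 1) cs) A v = cc (ev (cs 0) A v 0) (ev (tup m (fun i => cs i.succ)) A v) :=
      rfl
    rw [h1, ih, ← ext_cons]
    congr 1
    funext i
    refine Fin.cases ?_ (fun j => ?_) i
    · rfl
    · rfl

/-- a code for every function in the class -/
lemma code_exists (A : ℕ → Bool) (n : ℕ) (f : (Fin n → ℕ) → ℕ) (hf : E2 A n f) :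
    ∃ c : Code, ∀ v, f v = ev c A (ext v) 0 := by
  induction hf with
  | zero n => exact ⟨Code.zero, fun v => rfl⟩
  | succ => exact ⟨Code.succ, fun v => by simp [ev, ext]⟩
  | proj i => exact ⟨Code.proj i, fun v => by simp [ev, ext]⟩
  | mul => exact ⟨Code.mul, fun v => by simp [ev, ext]⟩
  | orc => exact ⟨Code.orc, fun v => by simp [ev, ext]⟩
  | comp hg hhs ihg ihh =>
    obtain ⟨cg, hcg⟩ := ihg
    choose ch hch using ihh
    refine ⟨Code.comp cg (tup _ ch), fun v => ?_⟩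
    have h1 : ev (Code.comp cg (tup _ ch)) A (ext v) 0 = ev cg A (ev (tup _ ch) A (ext v)) 0 := rfl
    rw [h1, ev_tup]
    refine (hcg _).trans ?_
    congr 2
    funext i
    exact hch i v
  | @lrec n g h b F hg hh hb hle h0 hs ihg ihh ihb =>
    obtain ⟨cg, hcg⟩ := ihg
    obtain ⟨ch, hch⟩ := ihh
    obtain ⟨cb, hcb⟩ := ihb
    refine ⟨Code.lrec cg ch cb, fun v => ?_⟩
    obtain ⟨y, w, rfl⟩ : ∃ (y : ℕ) (w : Fin n → ℕ), v = Matrix.vecCons y w :=
      ⟨v 0, fun i => v i.succ, by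
        funext i
        refine Fin.cases ?_ (fun j => ?_) i
        · rfl
        · rfl⟩
    rw [ext_cons]
    induction y with
    | zero =>
      have h1 : ev (Code.lrec cg ch cb) A (cc 0 (ext w)) 0 =
        min (ev cg A (ext w) 0) (ev cb A (cc 0 (ext w)) 0) := rfl
      rw [h1, ← ext_cons, ← hcg, ← hcb, ← h0]
      exact (min_eq_left (hle _)).symm
    | succ y ih =>
      have h1 : ev (Code.lrec cg ch cb) A (cc (y + 1) (ext w)) 0 =
        min (ev ch A (cc (ev (Code.lrec cg ch cb) A (cc y (ext w)) 0) (cc y (ext w))) 0)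
          (ev cb A (cc (y + 1) (ext w)) 0) := rfl
      rw [h1, ← ih, ← ext_cons, ← ext_cons, ← ext_cons, ← hch, ← hcb, ← hs]
      exact (min_eq_left (hle _)).symm

lemma cc_le {x m : ℕ} {v : ℕ → ℕ} (hx : x ≤ m) (hv : ∀ i, v i ≤ m) : ∀ i, cc x v i ≤ m := by
  intro i
  rcases i with _ | i
  · exact hx
  · exact hv i

lemma pow_mono2 (m : ℕ) {a b : ℕ} (h : a ≤ b) : (m + 2) ^ a ≤ (m + 2) ^ b :=
  Nat.pow_le_pow_right (by omega) h

lemma pow_add2 (m d e : ℕ) : ((m + 2) ^ d + 2) ^ e ≤ (m + 2) ^ ((d + 2) * e) := by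
  rw [pow_mul]
  apply Nat.pow_le_pow_left
  have h1 : 1 ≤ (m + 2) ^ d := Nat.one_le_pow _ _ (by omega)
  have h2 : 4 ≤ (m + 2) ^ 2 := by
    rw [pow_two]
    exact Nat.mul_le_mul (show 2 ≤ m + 2 by omega) (show 2 ≤ m + 2 by omega)
  rw [pow_add]
  calc (m + 2) ^ d + 2 ≤ (m + 2) ^ d * 4 := by omega
    _ ≤ (m + 2) ^ d * (m + 2) ^ 2 := Nat.mul_le_mul_left _ h2

/-- bounds and locality -/
lemma ev_local (c : Code) : ∃ d : ℕ, ∀ (m : ℕ) (v : ℕ → ℕ), (∀ i, v i ≤ m) → ∀ A : ℕ → Bool,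
    (∀ j, ev c A v j ≤ (m + 2) ^ d) ∧
    ∀ A' : ℕ → Bool, (∀ y < (m + 2) ^ d, A y = A' y) → ev c A v = ev c A' v := by
  induction c with
  | zero => exact ⟨0, fun m v hv A => ⟨fun j => Nat.zero_le _, fun A' _ => rfl⟩⟩
  | succ =>
    refine ⟨1, fun m v hv A => ⟨fun j => ?_, fun A' _ => rfl⟩⟩
    have := hv 0
    change v 0 + 1 ≤ (m + 2) ^ 1
    rw [pow_one]
    omega
  | proj i =>
    refine ⟨1, fun m v hv A => ⟨fun j => ?_, fun A' _ => rfl⟩⟩
    have := hv i
    change v i ≤ (m + 2) ^ 1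
    rw [pow_one]
    omega
  | mul =>
    refine ⟨2, fun m v hv A => ⟨fun j => ?_, fun A' _ => rfl⟩⟩
    have h0 := hv 0
    have h1 := hv 1
    change (v 0 + 1) * (v 1 + 1) ≤ (m + 2) ^ 2
    rw [pow_two]
    exact Nat.mul_le_mul (by omega) (by omega)
  | orc =>
    refine ⟨1, fun m v hv A => ⟨fun j => ?_, fun A' hA => ?_⟩⟩
    · change (A (v 0)).toNat ≤ (m + 2) ^ 1
      have := Bool.toNat_le (A (v 0))
      rw [pow_one]
      omega
    · have h0 := hv 0
      funext j
      change (A (v 0)).toNat = (A' (v 0)).toNat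
      rw [hA (v 0) (by rw [pow_one]; omega)]
  | comp g h ihg ihh =>
    obtain ⟨dg, hg⟩ := ihg
    obtain ⟨dh, hh⟩ := ihh
    refine ⟨(dh + 2) * (dg + 1), fun m v hv A => ?_⟩
    have e1 : (m + 2) ^ dh ≤ (m + 2) ^ ((dh + 2) * (dg + 1)) := by
      apply pow_mono2; nlinarith
    have e2 : ((m + 2) ^ dh + 2) ^ dg ≤ (m + 2) ^ ((dh + 2) * (dg + 1)) := by
      refine (pow_add2 m dh dg).trans (pow_mono2 m ?_)
      nlinarith
    have h1 := hh m v hv
    have h2 := hg ((m + 2) ^ dh) (ev h A v) (h1 A).1 A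
    refine ⟨fun j => (h2.1 j).trans e2, fun A' hA => ?_⟩
    have h3 : ev h A v = ev h A' v := (h1 A).2 A' (fun y hy => hA y (lt_of_lt_of_le hy e1))
    have h4 : ev g A (ev h A v) = ev g A' (ev h A v) :=
      h2.2 A' (fun y hy => hA y (lt_of_lt_of_le hy e2))
    change ev g A (ev h A v) = ev g A' (ev h A' v)
    rw [h4, h3]
  | cons a b iha ihb =>
    obtain ⟨da, ha⟩ := iha
    obtain ⟨db, hb⟩ := ihb
    refine ⟨da + db, fun m v hv A => ?_⟩
    have e1 : (m + 2) ^ da ≤ (m + 2) ^ (da + db) := pow_mono2 m (by omega)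
    have e2 : (m + 2) ^ db ≤ (m + 2) ^ (da + db) := pow_mono2 m (by omega)
    obtain ⟨a1, a2⟩ := ha m v hv A
    obtain ⟨b1, b2⟩ := hb m v hv A
    refine ⟨?_, fun A' hA => ?_⟩
    · exact cc_le ((a1 0).trans e1) (fun i => (b1 i).trans e2)
    · change cc (ev a A v 0) (ev b A v) = cc (ev a A' v 0) (ev b A' v)
      rw [a2 A' (fun y hy => hA y (lt_of_lt_of_le hy e1)),
        b2 A' (fun y hy => hA y (lt_of_lt_of_le hy e2))]
  | lrec g h b ihg ihh ihb =>
    obtain ⟨dg, hg⟩ := ihg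
    obtain ⟨dh, hh⟩ := ihh
    obtain ⟨db, hb⟩ := ihb
    refine ⟨dg + db + (db + 3) * dh, fun m v hv A => ?_⟩
    set D := dg + db + (db + 3) * dh with hD
    have e1 : (m + 2) ^ dg ≤ (m + 2) ^ D := pow_mono2 m (by omega)
    have e2 : (m + 2) ^ db ≤ (m + 2) ^ D := pow_mono2 m (by omega)
    have e3 : ((m + 2) ^ (db + 1) + 2) ^ dh ≤ (m + 2) ^ D :=
      (pow_add2 m (db + 1) dh).trans (pow_mono2 m (by
        have : (db + 1 + 2) * dh = (db + 3) * dh := by ring
        omega))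
    have e4 : m ≤ (m + 2) ^ (db + 1) := by
      have : (m + 2) ^ 1 ≤ (m + 2) ^ (db + 1) := pow_mono2 m (by omega)
      rw [pow_one] at this
      omega
    have e5 : (m + 2) ^ db ≤ (m + 2) ^ (db + 1) := pow_mono2 m (by omega)
    set w : ℕ → ℕ := fun i => v (i + 1) with hw
    have hwm : ∀ i, w i ≤ m := fun i => hv (i + 1)
    -- the truncated recursion
    set tr : (ℕ → Bool) → ℕ → ℕ := fun A y =>
      Nat.rec (min (ev g A w 0) (ev b A (cc 0 w) 0))
        (fun y r => min (ev h A (cc r (cc y w)) 0) (ev b A (cc (y + 1) w) 0)) y with htr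
    have t0 : ∀ A, tr A 0 = min (ev g A w 0) (ev b A (cc 0 w) 0) := fun A => rfl
    have ts : ∀ A y, tr A (y + 1) = min (ev h A (cc (tr A y) (cc y w)) 0)
        (ev b A (cc (y + 1) w) 0) := fun A y => rfl
    have hev : ∀ A j, ev (Code.lrec g h b) A v j = tr A (v 0) := fun A j => rfl
    have tb : ∀ A y, y ≤ m → tr A y ≤ (m + 2) ^ db := by
      intro A y hy
      rcases y with _ | y
      · rw [t0]
        exact (min_le_right _ _).trans ((hb m _ (cc_le hy hwm) A).1 0)
      · rw [ts]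
        exact (min_le_right _ _).trans ((hb m _ (cc_le hy hwm) A).1 0)
    refine ⟨fun j => ?_, fun A' hA => ?_⟩
    · rw [hev]
      exact (tb A _ (hv 0)).trans e2
    · have key : ∀ y, y ≤ m → tr A y = tr A' y := by
        intro y
        induction y with
        | zero =>
          intro hy
          rw [t0, t0, (hg m w hwm A).2 A' (fun y hy => hA y (lt_of_lt_of_le hy e1)),
            (hb m _ (cc_le hy hwm) A).2 A' (fun y hy => hA y (lt_of_lt_of_le hy e2))]
        | succ y ih =>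
          intro hy
          have hy' : y ≤ m := by omega
          have hm' : ∀ i, cc (tr A y) (cc y w) i ≤ (m + 2) ^ (db + 1) :=
            cc_le ((tb A y hy').trans e5)
              (fun i => (cc_le hy' hwm i).trans e4)
          rw [ts, ts, ← ih hy',
            (hh _ _ hm' A).2 A' (fun y hy => hA y (lt_of_lt_of_le hy e3)),
            (hb m _ (cc_le hy hwm) A).2 A' (fun y hy => hA y (lt_of_lt_of_le hy e2))]
      funext j
      rw [hev, hev]
      exact key _ (hv 0)

theorem task : S_E2U := by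
  refine ⟨fun n => Set.range (fun c : Code => fun A (v : Fin n → ℕ) => ev c A (ext v) 0),
    fun n => Set.countable_range _, ?_, ?_⟩
  · intro A n f hf
    obtain ⟨c, hc⟩ := code_exists A n f hf
    exact ⟨_, ⟨c, rfl⟩, funext hc⟩
  · rintro n Ψ ⟨c, rfl⟩
    obtain ⟨d, hd⟩ := ev_local c
    refine ⟨d, fun m v hv A A' hA => ?_⟩
    have h1 : ∀ i, ext v i ≤ m := by
      intro i
      unfold ext
      split_ifs with h
      · exact hv _
      · exact Nat.zero_le _
    exact congrFun ((hd m (ext v) h1 A).2 A' hA) 0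

end Pool.Agent.W675.RU
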